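import Mathlib
import Pool.Agent.Q289.FM.Stm
import Pool.Agent.Q289.FM.Main
import Pool.Agent.Q289.FM.Fin
import Pool.Agent.Q289.FM.RS
import Pool.Agent.Q289.FM.Mom
import Pool.Agent.Q289.FM.Inv
import Pool.Agent.Q190.FM.Op
import Pool.Agent.Q190.FM.Cu
import Pool.Agent.Q190.FM.Fid
import Pool.Agent.Q190.FM.Beta
import Pool.Agent.Q190.FM.Mp
import Pool.Agent.Q176.FM.Gen

set_option autoImplicit false

open MeasureTheory Filter Topology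

namespace Pool.Agent.Results.MP_d2a342_pr.SquareNotRegular

open Pool.Agent.Q289.FM

/-- Q1 is false. For every `m ≥ 16` there are compactly supported laws `μ`, `ρ` on `[0, ∞)` with
`ρ = μ ⊠ μ`, both `⊞`-infinitely divisible, such that `μ` is not free regular. Explicitly, near `0`
`R_μ(w) = m Y(w)` with `Y² (Y - 1) = w`, `Y(0) = 1`, and `R_ρ(u) = m² y(m u)²` with `y² - y = u`,
`y(0) = 1`. -/
theorem result :
    (∀ m : ℝ, 16 ≤ m → ∃ (μ ρ : Measure ℝ) (Y y : ℂ → ℂ),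
      PosLaw μ ∧ FreelyInfDiv μ ∧ ¬ FreeRegular μ ∧ PosLaw ρ ∧ IsFreeMul μ μ ρ ∧ FreelyInfDiv ρ ∧
      (Y 0 = 1 ∧ (∀ᶠ w in 𝓝 (0 : ℂ), Y w ^ 2 * (Y w - 1) = w) ∧
        IsRTransform μ (fun w => (m : ℂ) * Y w)) ∧
      (y 0 = 1 ∧ (∀ᶠ u in 𝓝 (0 : ℂ), y u ^ 2 - y u = u) ∧
        IsRTransform ρ (fun u => (m : ℂ) ^ 2 * y (m * u) ^ 2))) ∧
    ¬ (∀ μ ρ : Measure ℝ, PosLaw μ → FreelyInfDiv μ → PosLaw ρ → IsFreeMul μ μ ρ →
        (FreelyInfDiv ρ ↔ FreeRegular μ)) := by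
  have h1 := main (Pool.Agent.Q190.FM.fid (fin_of Pool.Agent.Q190.FM.op Pool.Agent.Q190.FM.cu))
    Pool.Agent.Q190.FM.betaM Pool.Agent.Q176.FM.gen Pool.Agent.Q190.FM.mp rs nr inv
  refine ⟨h1, fun h => ?_⟩
  obtain ⟨μ, ρ, Y, y, a1, a2, a3, a4, a5, a6, -⟩ := h1 16 le_rfl
  exact a3 ((h μ ρ a1 a2 a4 a5).1 a6)

end Pool.Agent.Results.MP_d2a342_pr.SquareNotRegular
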